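import Pool.Agent.Work.MP_ac85ec_co.HiFinal

/-!
# MP_ac85ec_co, Q2: the number of labelled graded orders with `k ≥ 5` grade levels

For every fixed `k ≥ 5`, `log₂ a_k(n) = n²/4 + (1 - (k-5)/2) n + O(log n)`.
-/

namespace Pool.Agent.Results.MP_ac85ec_co.FiveOrMoreLevels

open Filter Asymptotics _root_.MP_ac85ec_co

/-- **Answer to Q2 (proved).** -/
theorem result : ∀ k : ℕ, 5 ≤ k →
    (fun n : ℕ => Real.logb 2 (a k n) -
        ((n:ℝ) ^ 2 / 4 + (1 - ((k:ℝ) - 5) / 2) * n)) =O[atTop]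
      (fun n : ℕ => Real.log n) := by
  intro k hk
  obtain ⟨m, rfl⟩ : ∃ m, k = m + 1 := ⟨k - 1, by omega⟩
  obtain ⟨A, hA⟩ := Hi.two_sided_hi m (by omega)
  apply IsBigO.of_bound A
  filter_upwards [eventually_ge_atTop (3 * m + 40)] with n hn
  have h1 := hA n hn
  have hnR : (1:ℝ) ≤ n := by
    have : 1 ≤ n := by omega
    exact_mod_cast this
  rw [Real.norm_eq_abs, Real.norm_eq_abs, abs_of_nonneg (Real.log_nonneg hnR)]
  have e : (1 - (((m + 1 : ℕ) : ℝ) - 5) / 2) = (6 - (m:ℝ)) / 2 := by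
    push_cast
    ring
  rw [e]
  exact h1

end Pool.Agent.Results.MP_ac85ec_co.FiveOrMoreLevels
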