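import Pool.Agent.Work.MP_ac85ec_co.FourLower

/-!
# MP_ac85ec_co, Q1: the number of labelled graded orders with four grade levels

`log₂ a₄(n) = n²/4 + (1 + ½ log₂(3/2)) n + O(log n)`, so the asserted
`log₂ a₄(n) = n²/4 + (5/4) n + O(log n)` is false.
-/

namespace MP_ac85ec_co

open Filter Asymptotics

lemma two_sided (n : ℕ) (hn : 42 ≤ n) :
    |Real.logb 2 (a 4 n) - ((n:ℝ)^2/4 + (1 + β / 2) * n)| ≤ (3 / Real.log 2) * Real.log n := by
  have hnR : (42:ℝ) ≤ n := by exact_mod_cast hn
  have hlow := lower4 n hn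
  have hup := upper4 n (by omega)
  have hapos : (0:ℝ) < a 4 n := by
    by_contra h
    push Not at h
    have h1 : (0:ℝ) < (2:ℝ) ^ ((n:ℝ)^2/4 + (1 + β / 2) * n) := by positivity
    have h2 : 8 * ((n:ℝ) + 1)^2 * a 4 n ≤ 0 :=
      mul_nonpos_of_nonneg_of_nonpos (by positivity) h
    linarith
  have hlog2 : 0 < Real.log 2 := Real.log_pos (by norm_num)
  have e : (3 / Real.log 2) * Real.log n = Real.logb 2 ((n:ℝ)^3) := by
    rw [Real.logb, Real.log_pow]
    push_cast
    ring
  rw [e, abs_le]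
  constructor
  · -- lower
    have h1 : (2:ℝ) ^ ((n:ℝ)^2/4 + (1 + β / 2) * n) ≤ (n:ℝ)^3 * a 4 n := by
      refine hlow.trans ?_
      apply mul_le_mul_of_nonneg_right _ hapos.le
      nlinarith
    have h2 := Real.logb_le_logb_of_le (b := 2) (by norm_num) (by positivity) h1
    rw [Real.logb_rpow (by norm_num) (by norm_num), Real.logb_mul (by positivity) hapos.ne'] at h2
    linarith
  · have h1 : (a 4 n : ℝ) ≤ (2:ℝ) ^ ((n:ℝ)^2/4 + (1 + β / 2) * n) * (n:ℝ)^3 := by
      refine hup.trans ?_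
      apply mul_le_mul_of_nonneg_left _ (by positivity)
      nlinarith
    have h2 := Real.logb_le_logb_of_le (b := 2) (by norm_num) hapos h1
    rw [Real.logb_mul (by positivity) (by positivity),
      Real.logb_rpow (by norm_num) (by norm_num)] at h2
    linarith

end MP_ac85ec_co

namespace Pool.Agent.Results.MP_ac85ec_co.FourLevels

open Filter Asymptotics _root_.MP_ac85ec_co

/-- **Answer to Q1 (disproved, with the true second order term).** -/
theorem result :
    ((fun n : ℕ => Real.logb 2 (a 4 n) -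
        ((n:ℝ)^2/4 + (1 + Real.logb 2 (3 / 2) / 2) * n)) =O[atTop]
      (fun n : ℕ => Real.log n)) ∧
    ∀ C : ℝ, ∀ N : ℕ, ∃ n ≥ N,
      C * Real.log n < |Real.logb 2 (a 4 n) - (n:ℝ)^2/4 - 5/4 * n| := by
  constructor
  · apply IsBigO.of_bound (3 / Real.log 2)
    filter_upwards [eventually_ge_atTop 42] with n hn
    have h1 := two_sided n hn
    have hnR : (42:ℝ) ≤ n := by exact_mod_cast hn
    rw [Real.norm_eq_abs, Real.norm_eq_abs, abs_of_nonneg (Real.log_nonneg (by linarith))]
    exact h1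
  · intro C N
    have hβ := lt_β
    have hlo : (fun n : ℕ => Real.log n) =o[atTop] (fun n : ℕ => (n:ℝ)) :=
      Real.isLittleO_log_id_atTop.comp_tendsto tendsto_natCast_atTop_atTop
    have hc : 0 < (β / 2 - 1 / 4) / (|C| + 3 / Real.log 2 + 1) := by
      have hlog2 : 0 < Real.log 2 := Real.log_pos (by norm_num)
      have : 0 < 3 / Real.log 2 := by positivity
      have h0 := abs_nonneg C
      apply div_pos (by linarith) (by linarith)
    have h1 := (isLittleO_iff.mp hlo) hc
    obtain ⟨n, hn1, hn2, hn3⟩ :=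
      (h1.and ((eventually_ge_atTop N).and (eventually_ge_atTop 42))).exists
    refine ⟨n, hn2, ?_⟩
    have hnR : (42:ℝ) ≤ n := by exact_mod_cast hn3
    have hlogn : 0 < Real.log n := Real.log_pos (by linarith)
    rw [Real.norm_eq_abs, Real.norm_eq_abs, abs_of_pos hlogn,
      abs_of_nonneg (show (0:ℝ) ≤ (n:ℝ) by linarith), div_mul_eq_mul_div, le_div_iff₀ (by
        have hlog2 : 0 < Real.log 2 := Real.log_pos (by norm_num)
        have : 0 < 3 / Real.log 2 := by positivity
        have h0 := abs_nonneg C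
        linarith)] at hn1
    have h2 := two_sided n hn3
    have h3 : (β / 2 - 1 / 4) * n ≤
        |Real.logb 2 (a 4 n) - (n:ℝ)^2/4 - 5/4 * n| +
        |Real.logb 2 (a 4 n) - ((n:ℝ)^2/4 + (1 + β / 2) * n)| := by
      have e1 : (β / 2 - 1 / 4) * n =
          (Real.logb 2 (a 4 n) - (n:ℝ)^2/4 - 5/4 * n) -
          (Real.logb 2 (a 4 n) - ((n:ℝ)^2/4 + (1 + β / 2) * n)) := by ring
      calc (β / 2 - 1 / 4) * n ≤ |(β / 2 - 1 / 4) * n| := le_abs_self _
        _ ≤ _ := by
          rw [e1]
          exact abs_sub _ _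
    have h4 : C * Real.log n ≤ |C| * Real.log n :=
      mul_le_mul_of_nonneg_right (le_abs_self C) hlogn.le
    nlinarith

end Pool.Agent.Results.MP_ac85ec_co.FourLevels
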